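import Mathlib

/-!
# Splitting a convex hull along a linear functional
-/

set_option autoImplicit false
set_option linter.unusedSectionVars false

namespace Pool.Agent.Q333.Dec

open Finset
open scoped Pointwise

section conv

variable {F : Type} [AddCommGroup F] [Module ℝ F] {V0 V1 V2 : Set F} {s : F →ₗ[ℝ] ℝ}

theorem hull_val {V : Set F} {c : ℝ} (h : ∀ x ∈ V, s x = c) {x : F} (hx : x ∈ convexHull ℝ V) :
    s x = c := by
  have hc : Convex ℝ {x : F | s x = c} := by
    intro a ha b hb t u ht hu htu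
    simp only [Set.mem_ofPred_eq, map_add, map_smul, smul_eq_mul] at ha hb ⊢
    rw [ha, hb, ← add_mul, htu, one_mul]
  exact convexHull_min (t := {x : F | s x = c}) (fun y hy => h y hy) hc hx

theorem mem_union {A B : Set F} (hA : A.Nonempty) (hB : B.Nonempty) {x : F} :
    x ∈ convexHull ℝ (A ∪ B) ↔ ∃ a ∈ convexHull ℝ A, ∃ b ∈ convexHull ℝ B, ∃ t u : ℝ, 0 ≤ t ∧ 0 ≤ u ∧
      t + u = 1 ∧ t • a + u • b = x := by
  rw [convexHull_union hA hB, mem_convexJoin]
  constructor
  · rintro ⟨a, ha, b, hb, t, u, ht, hu, htu, rfl⟩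
    exact ⟨a, ha, b, hb, t, u, ht, hu, htu, rfl⟩
  · rintro ⟨a, ha, b, hb, t, u, ht, hu, htu, rfl⟩
    exact ⟨a, ha, b, hb, t, u, ht, hu, htu, rfl⟩

/-- the middle exchange -/
theorem exchange_hull (hex : ∀ x ∈ V0, ∀ y ∈ V2, ∃ z ∈ V1, ∃ z' ∈ V1, x + y = z + z') {x y : F}
    (hx : x ∈ convexHull ℝ V0) (hy : y ∈ convexHull ℝ V2) :
    ∃ z ∈ convexHull ℝ V1, ∃ z' ∈ convexHull ℝ V1, x + y = z + z' := by
  have h1 : x + y ∈ convexHull ℝ (V0 + V2) := by
    rw [convexHull_add]
    exact Set.add_mem_add hx hy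
  have h2 : V0 + V2 ⊆ V1 + V1 := by
    rintro _ ⟨a, ha, b, hb, rfl⟩
    obtain ⟨z, hz, z', hz', h⟩ := hex a ha b hb
    exact ⟨z, hz, z', hz', h.symm⟩
  have h3 := convexHull_mono (𝕜 := ℝ) h2 h1
  rw [convexHull_add] at h3
  obtain ⟨z, hz, z', hz', h⟩ := h3
  exact ⟨z, hz, z', hz', h.symm⟩

theorem cover_hull (hex : ∀ x ∈ V0, ∀ y ∈ V2, ∃ z ∈ V1, ∃ z' ∈ V1, x + y = z + z')
    (n0 : V0.Nonempty) (n1 : V1.Nonempty) (n2 : V2.Nonempty) {x : F}
    (hx : x ∈ convexHull ℝ (V0 ∪ (V1 ∪ V2))) :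
    x ∈ convexHull ℝ (V0 ∪ V1) ∨ x ∈ convexHull ℝ (V1 ∪ V2) := by
  rw [mem_union n0 (n1.mono Set.subset_union_left)] at hx
  obtain ⟨y0, h0, y, hy, a, d, ha, hd, had, rfl⟩ := hx
  rw [mem_union n1 n2] at hy
  obtain ⟨y1, h1, y2, h2, b, c, hb, hc, hbc, rfl⟩ := hy
  obtain ⟨z, hz, z', hz', hzz⟩ := exchange_hull hex h0 h2
  have m0 : convexHull ℝ V0 ⊆ convexHull ℝ (V0 ∪ V1) := convexHull_mono Set.subset_union_left
  have m1 : convexHull ℝ V1 ⊆ convexHull ℝ (V0 ∪ V1) := convexHull_mono Set.subset_union_right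
  have m1' : convexHull ℝ V1 ⊆ convexHull ℝ (V1 ∪ V2) := convexHull_mono Set.subset_union_left
  have m2 : convexHull ℝ V2 ⊆ convexHull ℝ (V1 ∪ V2) := convexHull_mono Set.subset_union_right
  -- four term convex combinations
  have four : ∀ {K : Set F}, Convex ℝ K → ∀ {p q r t : F}, p ∈ K → q ∈ K → r ∈ K → t ∈ K →
      ∀ {α β γ δ : ℝ}, 0 ≤ α → 0 ≤ β → 0 ≤ γ → 0 ≤ δ → α + β + γ + δ = 1 →
      α • p + β • q + γ • r + δ • t ∈ K := by
    intro K hK p q r t hp hq hr ht α β γ δ hα hβ hγ hδ hs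
    have := hK.sum_mem (t := (Finset.univ : Finset (Fin 4))) (w := ![α, β, γ, δ])
      (z := ![p, q, r, t]) (by intro i _; fin_cases i <;> assumption)
      (by simp [Fin.sum_univ_four]; exact hs) (by intro i _; fin_cases i <;> assumption)
    simpa [Fin.sum_univ_four] using this
  rcases le_total a (d * c) with hle | hle
  · right
    have e : a • y0 + d • (b • y1 + c • y2) =
        a • z + a • z' + (d * b) • y1 + (d * c - a) • y2 := by
      have : a • z + a • z' = a • y0 + a • y2 := by rw [← smul_add, ← hzz, smul_add]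
      rw [this]
      module
    rw [e]
    refine four (convex_convexHull ℝ _) (m1' hz) (m1' hz') (m1' h1) (m2 h2) ha ha
      (mul_nonneg hd hb) (by linarith) ?_
    have : d * b + d * c = d := by rw [← mul_add, hbc, mul_one]
    linarith
  · left
    have e : a • y0 + d • (b • y1 + c • y2) =
        (d * c) • z + (d * c) • z' + (d * b) • y1 + (a - d * c) • y0 := by
      have : (d * c) • z + (d * c) • z' = (d * c) • y0 + (d * c) • y2 := by
        rw [← smul_add, ← hzz, smul_add]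
      rw [this]
      module
    rw [e]
    refine four (convex_convexHull ℝ _) (m1 hz) (m1 hz') (m1 h1) (m0 h0) (mul_nonneg hd hc)
      (mul_nonneg hd hc) (mul_nonneg hd hb) (by linarith) ?_
    have : d * b + d * c = d := by rw [← mul_add, hbc, mul_one]
    linarith

/-- the face of `conv (A ∪ B)` on which the functional attains its extreme value -/
theorem face_hull {A B : Set F} (hA : A.Nonempty) (hB : B.Nonempty) {α β : ℝ} (hαβ : α ≠ β)
    (hsA : ∀ x ∈ A, s x = α) (hsB : ∀ x ∈ B, s x = β) {x : F} (hx : x ∈ convexHull ℝ (A ∪ B))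
    (hsx : s x = β) : x ∈ convexHull ℝ B := by
  rw [mem_union hA hB] at hx
  obtain ⟨a, ha, b, hb, t, u, ht, hu, htu, rfl⟩ := hx
  rw [map_add, map_smul, map_smul, hull_val hsA ha, hull_val hsB hb, smul_eq_mul, smul_eq_mul] at hsx
  have h0 : t * (α - β) = 0 := by
    have : u = 1 - t := by linarith
    rw [this] at hsx
    linarith
  have ht0 : t = 0 := by
    rcases mul_eq_zero.1 h0 with h | h
    · exact h
    · exact absurd (sub_eq_zero.1 h) hαβ
  have hu1 : u = 1 := by linarith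
  rw [ht0, hu1, zero_smul, one_smul, zero_add]
  exact hb

theorem extreme_hull {A B C : Set F} (hA : A.Nonempty) (hB : B.Nonempty) (hC : C.Nonempty) {δ : ℝ}
    (hδ : 0 < δ) {β : ℝ}
    (hsA : ∀ x ∈ A, s x = β - δ) (hsB : ∀ x ∈ B, s x = β) (hsC : ∀ x ∈ C, s x = β + δ) :
    IsExtreme ℝ (convexHull ℝ (A ∪ B)) (convexHull ℝ (A ∪ B) ∩ convexHull ℝ (B ∪ C)) := by
  have le1 : ∀ x ∈ convexHull ℝ (A ∪ B), s x ≤ β := by
    intro x hx
    rw [mem_union hA hB] at hx
    obtain ⟨a, ha, b, hb, t, u, ht, hu, htu, rfl⟩ := hx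
    rw [map_add, map_smul, map_smul, hull_val hsA ha, hull_val hsB hb, smul_eq_mul, smul_eq_mul]
    have : u = 1 - t := by linarith
    rw [this]
    nlinarith
  have ge1 : ∀ x ∈ convexHull ℝ (B ∪ C), β ≤ s x := by
    intro x hx
    rw [mem_union hB hC] at hx
    obtain ⟨a, ha, b, hb, t, u, ht, hu, htu, rfl⟩ := hx
    rw [map_add, map_smul, map_smul, hull_val hsB ha, hull_val hsC hb, smul_eq_mul, smul_eq_mul]
    have : t = 1 - u := by linarith
    rw [this]
    nlinarith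
  refine ⟨Set.inter_subset_left, ?_⟩
  rintro x hx y hy z ⟨hz, hz'⟩ ⟨t, u, ht, hu, htu, rfl⟩
  have h1 := ge1 _ hz'
  rw [map_add, map_smul, map_smul, smul_eq_mul, smul_eq_mul] at h1
  have h2 := le1 x hx
  have h3 := le1 y hy
  have h4 : s x = β := by
    by_contra hne
    have hlt : s x < β := lt_of_le_of_ne h2 hne
    have : t * s x < t * β := mul_lt_mul_of_pos_left hlt ht
    have : u * s y ≤ u * β := mul_le_mul_of_nonneg_left h3 hu.le
    have : t * β + u * β = β := by rw [← add_mul, htu, one_mul]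
    linarith
  refine ⟨hx, ?_⟩
  have h5 := face_hull hA hB (by linarith) hsA hsB hx h4
  exact convexHull_mono Set.subset_union_left h5

end conv

end Pool.Agent.Q333.Dec
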