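import Pool.Agent.Q295.PGI.Core
import Pool.Agent.Q333.Conv

/-!
# Decomposing the neighbours of the projective plane of order three
-/

set_option autoImplicit false
set_option linter.unusedSectionVars false

namespace Pool.Agent.Q333.Dec

open Finset Pool.Agent.Q295.PGI

variable {E : Type} [DecidableEq E]

/-- a matroid from a family of finite sets with the exchange property -/
theorem exists_matroid [Finite E] (P : Finset E → Prop) (hP : ∃ B, P B)
    (hex : ∀ B B', P B → P B' → ∀ e ∈ B, e ∉ B' → ∃ f ∈ B', f ∉ B ∧ P (insert f (B.erase e))) :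
    ∃ M : Matroid E, M.E = Set.univ ∧ ∀ B : Finset E, M.IsBase (B : Set E) ↔ P B := by
  classical
  refine ⟨Matroid.ofIsBaseOfFinite (E := Set.univ) Set.finite_univ
    (fun S => ∃ B : Finset E, (B : Set E) = S ∧ P B) ?_ ?_ ?_, rfl, ?_⟩
  · obtain ⟨B, hB⟩ := hP
    exact ⟨B, B, rfl, hB⟩
  · rintro _ _ ⟨B, rfl, hB⟩ ⟨B', rfl, hB'⟩ e ⟨he, he'⟩
    obtain ⟨f, hf, hf', h⟩ := hex B B' hB hB' e (by exact_mod_cast he) (by exact_mod_cast he')
    refine ⟨f, ⟨by exact_mod_cast hf, by exact_mod_cast hf'⟩, _, ?_, h⟩
    push_cast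
    rfl
  · exact fun _ _ => Set.subset_univ _
  · intro B
    show (∃ B' : Finset E, (B' : Set E) = (B : Set E) ∧ P B') ↔ P B
    constructor
    · rintro ⟨B', h, h'⟩
      have : B' = B := by exact_mod_cast h
      exact this ▸ h'
    · exact fun h => ⟨B, rfl, h⟩

/-- the number of elements of `A` as a functional -/
noncomputable def cnt (A : Finset E) : (E → ℝ) →ₗ[ℝ] ℝ where
  toFun x := ∑ e ∈ A, x e
  map_add' x y := by simp [Finset.sum_add_distrib]
  map_smul' c x := by simp [Finset.mul_sum]

theorem cnt_vec (A B : Finset E) : cnt A (vec B) = ((B ∩ A).card : ℝ) := by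
  show ∑ e ∈ A, vec B e = _
  simp only [vec]
  rw [← Finset.sum_filter, Finset.sum_const, nsmul_eq_mul, mul_one, Finset.inter_comm,
    Finset.filter_mem_eq_inter]

/-- splitting a matroid polytope -/
theorem split [Finite E] {N N1 N2 : Matroid E} (A : Finset E) (hE1 : N1.E = N.E)
    (hE2 : N2.E = N.E) (hle : ∀ B : Finset E, N.IsBase (B : Set E) → (B ∩ A).card ≤ 2)
    (h1 : ∀ B : Finset E, N1.IsBase (B : Set E) ↔ N.IsBase (B : Set E) ∧ (B ∩ A).card ≤ 1)
    (h2 : ∀ B : Finset E, N2.IsBase (B : Set E) ↔ N.IsBase (B : Set E) ∧ 1 ≤ (B ∩ A).card)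
    (hex : ∀ B B' : Finset E, N.IsBase (B : Set E) → N.IsBase (B' : Set E) → (B ∩ A).card = 0 →
      (B' ∩ A).card = 2 → ∃ C C' : Finset E, N.IsBase (C : Set E) ∧ N.IsBase (C' : Set E) ∧
        (C ∩ A).card = 1 ∧ (C' ∩ A).card = 1 ∧ vec B + vec B' = vec C + vec C')
    (n0 : ∃ B : Finset E, N.IsBase (B : Set E) ∧ (B ∩ A).card = 0)
    (n1 : ∃ B : Finset E, N.IsBase (B : Set E) ∧ (B ∩ A).card = 1)
    (n2 : ∃ B : Finset E, N.IsBase (B : Set E) ∧ (B ∩ A).card = 2) :
    IsMatroidSubdivision N {N1, N2} ∧ N ∉ ({N1, N2} : Set (Matroid E)) := by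
  classical
  set V : ℕ → Set (E → ℝ) := fun k => {x | ∃ B : Finset E, (N.IsBase (B : Set E) ∧
    (B ∩ A).card = k) ∧ x = vec B} with hV
  have ne0 : (V 0).Nonempty := by
    obtain ⟨B, hB⟩ := n0
    exact ⟨vec B, B, hB, rfl⟩
  have ne1 : (V 1).Nonempty := by
    obtain ⟨B, hB⟩ := n1
    exact ⟨vec B, B, hB, rfl⟩
  have ne2 : (V 2).Nonempty := by
    obtain ⟨B, hB⟩ := n2
    exact ⟨vec B, B, hB, rfl⟩
  have s : ∀ k : ℕ, ∀ x ∈ V k, cnt A x = k := by
    rintro k _ ⟨B, ⟨-, hB⟩, rfl⟩
    rw [cnt_vec, hB]
  have p1 : polytope N1 = convexHull ℝ (V 0 ∪ V 1) := by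
    unfold polytope
    congr 1
    ext x
    constructor
    · rintro ⟨B, hB, rfl⟩
      obtain ⟨k1, k2⟩ := (h1 B).1 hB
      rcases (by omega : (B ∩ A).card = 0 ∨ (B ∩ A).card = 1) with h | h
      · exact Or.inl ⟨B, ⟨k1, h⟩, rfl⟩
      · exact Or.inr ⟨B, ⟨k1, h⟩, rfl⟩
    · rintro (⟨B, ⟨k1, k2⟩, rfl⟩ | ⟨B, ⟨k1, k2⟩, rfl⟩)
      · exact ⟨B, (h1 B).2 ⟨k1, by omega⟩, rfl⟩
      · exact ⟨B, (h1 B).2 ⟨k1, by omega⟩, rfl⟩
  have p2 : polytope N2 = convexHull ℝ (V 1 ∪ V 2) := by
    unfold polytope
    congr 1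
    ext x
    constructor
    · rintro ⟨B, hB, rfl⟩
      obtain ⟨k1, k2⟩ := (h2 B).1 hB
      have k3 := hle B k1
      rcases (by omega : (B ∩ A).card = 1 ∨ (B ∩ A).card = 2) with h | h
      · exact Or.inl ⟨B, ⟨k1, h⟩, rfl⟩
      · exact Or.inr ⟨B, ⟨k1, h⟩, rfl⟩
    · rintro (⟨B, ⟨k1, k2⟩, rfl⟩ | ⟨B, ⟨k1, k2⟩, rfl⟩)
      · exact ⟨B, (h2 B).2 ⟨k1, by omega⟩, rfl⟩
      · exact ⟨B, (h2 B).2 ⟨k1, by omega⟩, rfl⟩
  have p0 : polytope N = convexHull ℝ (V 0 ∪ (V 1 ∪ V 2)) := by
    unfold polytope
    congr 1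
    ext x
    constructor
    · rintro ⟨B, hB, rfl⟩
      have k3 := hle B hB
      rcases (by omega : (B ∩ A).card = 0 ∨ (B ∩ A).card = 1 ∨ (B ∩ A).card = 2) with h | h | h
      · exact Or.inl ⟨B, ⟨hB, h⟩, rfl⟩
      · exact Or.inr (Or.inl ⟨B, ⟨hB, h⟩, rfl⟩)
      · exact Or.inr (Or.inr ⟨B, ⟨hB, h⟩, rfl⟩)
    · rintro (⟨B, ⟨k1, k2⟩, rfl⟩ | ⟨B, ⟨k1, k2⟩, rfl⟩ | ⟨B, ⟨k1, k2⟩, rfl⟩)
      · exact ⟨B, k1, rfl⟩
      · exact ⟨B, k1, rfl⟩
      · exact ⟨B, k1, rfl⟩
  have e12 : IsExtreme ℝ (polytope N1) (polytope N1 ∩ polytope N2) := by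
    rw [p1, p2]
    refine extreme_hull (s := cnt A) ne0 ne1 ne2 (δ := 1) one_pos (β := 1) ?_ ?_ ?_
    · intro x hx
      rw [s 0 x hx]
      norm_num
    · intro x hx
      rw [s 1 x hx]
      norm_num
    · intro x hx
      rw [s 2 x hx]
      norm_num
  have e21 : IsExtreme ℝ (polytope N2) (polytope N2 ∩ polytope N1) := by
    rw [p1, p2, Set.union_comm (V 1) (V 2), Set.union_comm (V 0) (V 1)]
    refine extreme_hull (s := - cnt A) ne2 ne1 ne0 (δ := 1) one_pos (β := -1) ?_ ?_ ?_
    · intro x hx
      rw [LinearMap.neg_apply, s 2 x hx]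
      norm_num
    · intro x hx
      rw [LinearMap.neg_apply, s 1 x hx]
      norm_num
    · intro x hx
      rw [LinearMap.neg_apply, s 0 x hx]
      norm_num
  refine ⟨⟨Set.toFinite _, ?_, ?_, ?_, ?_⟩, ?_⟩
  · rintro M (rfl | rfl)
    · exact hE1
    · exact hE2
  · rintro M hM B hB
    obtain ⟨B, rfl⟩ := (Set.toFinite B).exists_finset_coe
    rcases hM with rfl | rfl
    · exact ((h1 B).1 hB).1
    · exact ((h2 B).1 hB).1
  · rw [Set.biUnion_insert, Set.biUnion_singleton]
    apply Set.Subset.antisymm
    · rw [p0, p1, p2]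
      refine Set.union_subset (convexHull_mono ?_) (convexHull_mono ?_)
      · exact Set.union_subset_union_right _ Set.subset_union_left
      · exact Set.subset_union_right
    · intro x hx
      rw [p0] at hx
      rw [p1, p2]
      refine cover_hull ?_ ne0 ne1 ne2 hx
      rintro _ ⟨B, ⟨k1, k2⟩, rfl⟩ _ ⟨B', ⟨k1', k2'⟩, rfl⟩
      obtain ⟨C, C', a1, a2, a3, a4, a5⟩ := hex B B' k1 k1' k2 k2'
      exact ⟨vec C, ⟨C, ⟨a1, a3⟩, rfl⟩, vec C', ⟨C', ⟨a2, a4⟩, rfl⟩, a5⟩
  · rintro M (rfl | rfl) M' (rfl | rfl)
    · rw [Set.inter_self]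
    · exact e12
    · exact e21
    · rw [Set.inter_self]
  · rintro (h | h)
    · obtain ⟨B, b1, b2⟩ := n2
      have := ((h1 B).1 (h ▸ b1)).2
      omega
    · obtain ⟨B, b1, b2⟩ := n0
      have := ((h2 B).1 (h ▸ b1)).2
      omega

/-- the indicator of an element -/
def ind (a : E) : E → ℝ := fun e => if e = a then 1 else 0

theorem vec3 {a b c : E} (hab : a ≠ b) (hac : a ≠ c) (hbc : b ≠ c) :
    vec ({a, b, c} : Finset E) = ind a + ind b + ind c := by
  funext e
  simp only [vec, ind, Pi.add_apply, Finset.mem_insert, Finset.mem_singleton]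
  by_cases h1 : e = a
  · subst h1
    simp [hab, hac]
  · by_cases h2 : e = b
    · subst h2
      simp [h1, hbc]
    · simp [h1, h2]

theorem three {B : Finset E} (hB : B.card = 3) {a b c : E} (ha : a ∈ B) (hb : b ∈ B) (hc : c ∈ B)
    (hab : a ≠ b) (hac : a ≠ c) (hbc : b ≠ c) : B = {a, b, c} := by
  symm
  apply Finset.eq_of_subset_of_card_le
  · intro x hx
    simp only [Finset.mem_insert, Finset.mem_singleton] at hx
    rcases hx with rfl | rfl | rfl <;> assumption
  · rw [hB, Finset.card_insert_of_notMem (by simp [hab, hac]),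
      Finset.card_insert_of_notMem (by simp [hbc]), Finset.card_singleton]

theorem card3 {a b c : E} (hab : a ≠ b) (hac : a ≠ c) (hbc : b ≠ c) :
    ({a, b, c} : Finset E).card = 3 := by
  rw [Finset.card_insert_of_notMem (by simp [hab, hac]),
      Finset.card_insert_of_notMem (by simp [hbc]), Finset.card_singleton]

/-- the type of an element -/
def typ (l1 l2 l3 l4 x : E) : Fin 4 :=
  if x = l1 ∨ x = l2 then 0 else if x = l3 then 1 else if x = l4 then 2 else 3

theorem dec_aux [Finite E] (N : Matroid E) (L : Finset E) (l1 l2 l3 l4 : E)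
    (hL : L = {l1, l2, l3, l4}) (d12 : l1 ≠ l2) (d13 : l1 ≠ l3) (d14 : l1 ≠ l4) (d23 : l2 ≠ l3)
    (d24 : l2 ≠ l4) (d34 : l3 ≠ l4) (hE : N.E = Set.univ)
    (h2 : ∀ B : Finset E, N.IsBase (B : Set E) → B.card = 3 ∧ 2 ≤ (B ∩ L).card)
    (h3 : ∀ B : Finset E, B.card = 3 → (B ∩ L).card = 2 → N.IsBase (B : Set E))
    (b3 : N.IsBase (({l1, l2, l4} : Finset E) : Set E))
    (b2 : N.IsBase (({l1, l3, l4} : Finset E) : Set E))
    (b1 : N.IsBase (({l2, l3, l4} : Finset E) : Set E)) (j : E) (hj : j ∉ L) :
    ∃ D : Set (Matroid E), IsMatroidSubdivision N D ∧ N ∉ D := by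
  classical
  have m1 : l1 ∈ L := by rw [hL]; simp
  have m2 : l2 ∈ L := by rw [hL]; simp
  have m3 : l3 ∈ L := by rw [hL]; simp
  have m4 : l4 ∈ L := by rw [hL]; simp
  have cA : ∀ B : Finset E, (B ∩ {l1, l2}).card =
      (if l1 ∈ B then 1 else 0) + (if l2 ∈ B then 1 else 0) := by
    intro B
    rw [Finset.inter_comm, ← Finset.filter_mem_eq_inter, Finset.card_filter, Finset.sum_pair d12]
  have cL : ∀ B : Finset E, (B ∩ L).card = (if l1 ∈ B then 1 else 0) +
      ((if l2 ∈ B then 1 else 0) + ((if l3 ∈ B then 1 else 0) + (if l4 ∈ B then 1 else 0))) := by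
    intro B
    rw [Finset.inter_comm, ← Finset.filter_mem_eq_inter, Finset.card_filter, hL,
      Finset.sum_insert (by simp [d12, d13, d14]), Finset.sum_insert (by simp [d23, d24]),
      Finset.sum_pair d34]
  have base2 : ∀ a b u, a ∈ L → b ∈ L → u ∉ L → a ≠ b →
      N.IsBase (({a, b, u} : Finset E) : Set E) := by
    intro a b u ha hb hu hab
    have hau : a ≠ u := fun h => hu (h ▸ ha)
    have hbu : b ≠ u := fun h => hu (h ▸ hb)
    refine h3 _ (card3 hab hau hbu) ?_
    have : ({a, b, u} : Finset E) ∩ L = {a, b} := by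
      ext x
      simp only [Finset.mem_inter, Finset.mem_insert, Finset.mem_singleton]
      constructor
      · rintro ⟨rfl | rfl | rfl, hx⟩
        · exact Or.inl rfl
        · exact Or.inr rfl
        · exact absurd hx hu
      · rintro (rfl | rfl)
        · exact ⟨Or.inl rfl, ha⟩
        · exact ⟨Or.inr (Or.inl rfl), hb⟩
    rw [this, Finset.card_pair hab]
  -- at most one element outside `L`
  have out1 : ∀ B : Finset E, N.IsBase (B : Set E) → ∀ x ∈ B, ∀ y ∈ B, x ∉ L → y ∉ L → x = y := by
    intro B hB x hx y hy hxL hyL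
    by_contra hxy
    obtain ⟨k1, k2⟩ := h2 B hB
    have : B ∩ L ⊆ (B.erase x).erase y := by
      intro z hz
      rw [Finset.mem_inter] at hz
      refine Finset.mem_erase.2 ⟨fun h => hyL (h ▸ hz.2), Finset.mem_erase.2
        ⟨fun h => hxL (h ▸ hz.2), hz.1⟩⟩
    have k3 := Finset.card_le_card this
    rw [Finset.card_erase_of_mem (Finset.mem_erase.2 ⟨Ne.symm hxy, hy⟩),
      Finset.card_erase_of_mem hx, k1] at k3
    omega
  -- the first matroid
  have char1 : ∀ B : Finset E, (N.IsBase (B : Set E) ∧ (B ∩ {l1, l2}).card ≤ 1) ↔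
      (B.card = 3 ∧ Set.InjOn (typ l1 l2 l3 l4) B) := by
    intro B
    constructor
    · rintro ⟨hB, hA⟩
      refine ⟨(h2 B hB).1, ?_⟩
      intro x hx y hy hxy
      have hx : x ∈ B := hx
      have hy : y ∈ B := hy
      rw [cA] at hA
      have hnot : ¬ (l1 ∈ B ∧ l2 ∈ B) := by
        rintro ⟨q1, q2⟩
        simp [q1, q2] at hA
      by_cases x1 : x = l1 ∨ x = l2
      · by_cases y1 : y = l1 ∨ y = l2
        · rcases x1 with rfl | rfl <;> rcases y1 with rfl | rfl
          · rfl
          · exact absurd ⟨hx, hy⟩ hnot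
          · exact absurd ⟨hy, hx⟩ hnot
          · rfl
        · exfalso
          unfold typ at hxy
          rw [if_pos x1, if_neg y1] at hxy
          split_ifs at hxy <;> exact absurd hxy (by decide)
      · by_cases y1 : y = l1 ∨ y = l2
        · exfalso
          unfold typ at hxy
          rw [if_neg x1, if_pos y1] at hxy
          split_ifs at hxy <;> exact absurd hxy (by decide)
        · unfold typ at hxy
          rw [if_neg x1, if_neg y1] at hxy
          by_cases x3 : x = l3
          · by_cases y3 : y = l3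
            · rw [x3, y3]
            · exfalso
              rw [if_pos x3, if_neg y3] at hxy
              split_ifs at hxy <;> exact absurd hxy (by decide)
          · by_cases y3 : y = l3
            · exfalso
              rw [if_neg x3, if_pos y3] at hxy
              split_ifs at hxy <;> exact absurd hxy (by decide)
            · rw [if_neg x3, if_neg y3] at hxy
              by_cases x4 : x = l4
              · by_cases y4 : y = l4
                · rw [x4, y4]
                · exfalso
                  rw [if_pos x4, if_neg y4] at hxy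
                  exact absurd hxy (by decide)
              · by_cases y4 : y = l4
                · exfalso
                  rw [if_neg x4, if_pos y4] at hxy
                  exact absurd hxy (by decide)
                · refine out1 B hB x hx y hy ?_ ?_
                  · rw [hL]
                    simp only [Finset.mem_insert, Finset.mem_singleton]
                    tauto
                  · rw [hL]
                    simp only [Finset.mem_insert, Finset.mem_singleton]
                    tauto
    · rintro ⟨hc, hinj⟩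
      have hnot : ¬ (l1 ∈ B ∧ l2 ∈ B) := by
        rintro ⟨q1, q2⟩
        exact d12 (hinj q1 q2 (by simp [typ]))
      have hA : (B ∩ {l1, l2}).card ≤ 1 := by
        rw [cA]
        by_cases q1 : l1 ∈ B
        · have q2 : l2 ∉ B := fun h => hnot ⟨q1, h⟩
          simp [q1, q2]
        · simp only [q1, if_false, zero_add]
          split_ifs <;> norm_num
      have hout : (B \ L).card ≤ 1 := by
        rw [Finset.card_le_one]
        intro x hx y hy
        rw [Finset.mem_sdiff, hL] at hx hy
        simp only [Finset.mem_insert, Finset.mem_singleton, not_or] at hx hy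
        refine hinj hx.1 hy.1 ?_
        simp [typ, hx, hy]
      have hsum := Finset.card_sdiff_add_card_inter B L
      refine ⟨?_, hA⟩
      by_cases h : (B ∩ L).card = 2
      · exact h3 B hc h
      · have h' : (B ∩ L).card = 3 := by omega
        rw [cL] at h'
        by_cases q1 : l1 ∈ B
        · have q2 : l2 ∉ B := fun h => hnot ⟨q1, h⟩
          have q3 : l3 ∈ B := by
            by_contra q3
            simp only [q1, q2, q3, if_true, if_false] at h'
            split_ifs at h' <;> omega
          have q4 : l4 ∈ B := by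
            by_contra q4
            simp only [q1, q2, q3, q4, if_true, if_false] at h'
            omega
          rw [three hc q1 q3 q4 d13 d14 d34]
          exact b2
        · have q2 : l2 ∈ B := by
            by_contra q2
            simp only [q1, q2, if_true, if_false] at h'
            split_ifs at h' <;> omega
          have q3 : l3 ∈ B := by
            by_contra q3
            simp only [q1, q2, q3, if_true, if_false] at h'
            split_ifs at h' <;> omega
          have q4 : l4 ∈ B := by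
            by_contra q4
            simp only [q1, q2, q3, q4, if_true, if_false] at h'
            omega
          rw [three hc q2 q3 q4 d23 d24 d34]
          exact b1
  obtain ⟨N1, e1, hN1⟩ := exists_matroid
    (fun B : Finset E => N.IsBase (B : Set E) ∧ (B ∩ {l1, l2}).card ≤ 1)
    ⟨{l1, l3, l4}, b2, by rw [cA]; simp [d12.symm, d23, d24]⟩ (by
      intro B B' hB hB' e he he'
      rw [char1] at hB hB'
      obtain ⟨c, i⟩ := hB
      obtain ⟨c', i'⟩ := hB'
      have k1 : (B.erase e).card = 2 := by rw [Finset.card_erase_of_mem he, c]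
      have k2 : ((B.erase e).image (typ l1 l2 l3 l4)).card ≤ 2 :=
        Finset.card_image_le.trans k1.le
      have k3 : (B'.image (typ l1 l2 l3 l4)).card = 3 := by
        rw [Finset.card_image_of_injOn i', c']
      obtain ⟨t, ht, ht'⟩ := Finset.exists_mem_notMem_of_card_lt_card (by omega :
        ((B.erase e).image (typ l1 l2 l3 l4)).card < (B'.image (typ l1 l2 l3 l4)).card)
      rw [Finset.mem_image] at ht
      obtain ⟨f, hf, rfl⟩ := ht
      have k4 : f ∉ B.erase e := fun h => ht' (Finset.mem_image_of_mem _ h)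
      have k5 : f ≠ e := fun h => he' (h ▸ hf)
      have k6 : f ∉ B := fun h => k4 (Finset.mem_erase.2 ⟨k5, h⟩)
      refine ⟨f, hf, k6, ?_⟩
      show N.IsBase ((insert f (B.erase e) : Finset E) : Set E) ∧
        ((insert f (B.erase e)) ∩ {l1, l2}).card ≤ 1
      rw [char1]
      refine ⟨by rw [Finset.card_insert_of_notMem k4, k1], ?_⟩
      rw [Finset.coe_insert, Set.injOn_insert (by exact_mod_cast k4)]
      refine ⟨i.mono (by exact_mod_cast Finset.erase_subset _ _), ?_⟩
      rintro ⟨z, hz, hz'⟩
      exact ht' (hz' ▸ Finset.mem_image_of_mem _ (by exact_mod_cast hz)))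
  -- the second matroid
  obtain ⟨N2, e2, hN2⟩ := exists_matroid
    (fun B : Finset E => N.IsBase (B : Set E) ∧ 1 ≤ (B ∩ {l1, l2}).card)
    ⟨{l1, l3, l4}, b2, by rw [cA]; simp⟩ (by
      intro B B' hB hB' e he he'
      obtain ⟨f, hf, hf', hb⟩ := exch hB.1 hB'.1 he he'
      by_cases hcase : 1 ≤ ((insert f (B.erase e)) ∩ {l1, l2}).card
      · exact ⟨f, hf, hf', hb, hcase⟩
      have q1 : l1 ∉ insert f (B.erase e) := by
        intro h
        apply hcase
        rw [cA]
        simp only [h, if_true]
        omega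
      have q2 : l2 ∉ insert f (B.erase e) := by
        intro h
        apply hcase
        rw [cA]
        simp only [h, if_true]
        omega
      have q1' : l1 ∉ B.erase e := fun h => q1 (Finset.mem_insert_of_mem h)
      have q2' : l2 ∉ B.erase e := fun h => q2 (Finset.mem_insert_of_mem h)
      have hins : insert e (B.erase e) = B := Finset.insert_erase he
      obtain ⟨kc, kL⟩ := h2 B hB.1
      have kR : (B.erase e).card = 2 := by rw [Finset.card_erase_of_mem he, kc]
      have hRL : 1 ≤ ((B.erase e) ∩ L).card := by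
        have : B ∩ L ⊆ insert e ((B.erase e) ∩ L) := by
          intro z hz
          rw [Finset.mem_inter] at hz
          rw [Finset.mem_insert, Finset.mem_inter, Finset.mem_erase]
          by_cases hze : z = e
          · exact Or.inl hze
          · exact Or.inr ⟨⟨hze, hz.1⟩, hz.2⟩
        have := (Finset.card_le_card this).trans (Finset.card_insert_le _ _)
        omega
      have key : ∀ a, a = l1 ∨ a = l2 → N.IsBase ((insert a (B.erase e) : Finset E) : Set E) := by
        intro a ha
        have haR : a ∉ B.erase e := by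
          rcases ha with rfl | rfl <;> assumption
        have hcard : (insert a (B.erase e)).card = 3 := by
          rw [Finset.card_insert_of_notMem haR, kR]
        have haL : a ∈ L := by
          rcases ha with rfl | rfl <;> assumption
        have hcL : (insert a (B.erase e) ∩ L).card = ((B.erase e) ∩ L).card + 1 := by
          rw [Finset.insert_inter_of_mem haL, Finset.card_insert_of_notMem]
          exact fun h => haR (Finset.mem_inter.1 h).1
        by_cases h : ((B.erase e) ∩ L).card = 1
        · exact h3 _ hcard (by rw [hcL, h])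
        · have h4 : ((B.erase e) ∩ L).card ≤ 2 := by
            rw [← kR]
            exact Finset.card_le_card Finset.inter_subset_left
          have h5 : ((B.erase e) ∩ L).card = 2 := by omega
          rw [cL] at h5
          simp only [q1', q2', if_false, zero_add] at h5
          have q3 : l3 ∈ B.erase e := by
            by_contra q3
            simp only [q3, if_false] at h5
            split_ifs at h5 <;> omega
          have q4 : l4 ∈ B.erase e := by
            by_contra q4
            simp only [q3, q4, if_true, if_false] at h5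
            omega
          rcases ha with rfl | rfl
          · rw [three hcard (Finset.mem_insert_self _ _) (Finset.mem_insert_of_mem q3)
              (Finset.mem_insert_of_mem q4) d13 d14 d34]
            exact b2
          · rw [three hcard (Finset.mem_insert_self _ _) (Finset.mem_insert_of_mem q3)
              (Finset.mem_insert_of_mem q4) d23 d24 d34]
            exact b1
      have hB'2 := hB'.2
      rw [cA] at hB'2
      have hex : ∃ a, (a = l1 ∨ a = l2) ∧ a ∈ B' := by
        by_cases r1 : l1 ∈ B'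
        · exact ⟨l1, Or.inl rfl, r1⟩
        · by_cases r2 : l2 ∈ B'
          · exact ⟨l2, Or.inr rfl, r2⟩
          · simp [r1, r2] at hB'2
      obtain ⟨a, ha, haB⟩ := hex
      have hae : a ≠ e := fun h => he' (h ▸ haB)
      have haR : a ∉ B.erase e := by
        rcases ha with rfl | rfl <;> assumption
      refine ⟨a, haB, fun h => haR (Finset.mem_erase.2 ⟨hae, h⟩), key a ha, ?_⟩
      show 1 ≤ ((insert a (B.erase e)) ∩ {l1, l2}).card
      rw [Nat.one_le_iff_ne_zero, Ne, Finset.card_eq_zero]
      intro h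
      have : a ∈ (insert a (B.erase e)) ∩ {l1, l2} := by
        rw [Finset.mem_inter]
        exact ⟨Finset.mem_insert_self _ _, by simpa using ha⟩
      rw [h] at this
      exact absurd this (Finset.notMem_empty _))
  have hj1 : l1 ≠ j := fun h => hj (h ▸ m1)
  have hj2 : l2 ≠ j := fun h => hj (h ▸ m2)
  have hj3 : l3 ≠ j := fun h => hj (h ▸ m3)
  have hj4 : l4 ≠ j := fun h => hj (h ▸ m4)
  refine ⟨{N1, N2}, split (N1 := N1) (N2 := N2) {l1, l2} (by rw [e1, hE]) (by rw [e2, hE]) ?_ hN1
    hN2 ?_ ?_ ?_ ?_⟩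
  · intro B _
    exact (Finset.card_le_card Finset.inter_subset_right).trans Finset.card_le_two
  · intro B B' hB hB' h0 h2'
    rw [cA] at h0 h2'
    have n1 : l1 ∉ B := by
      intro h
      simp only [h, if_true] at h0
      omega
    have n2 : l2 ∉ B := by
      intro h
      simp only [h, if_true] at h0
      omega
    have p1 : l1 ∈ B' := by
      by_contra h
      simp only [h, if_false] at h2'
      split_ifs at h2' <;> omega
    have p2 : l2 ∈ B' := by
      by_contra h
      simp only [h, if_false] at h2'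
      split_ifs at h2' <;> omega
    obtain ⟨kc, kL⟩ := h2 B hB
    obtain ⟨kc', kL'⟩ := h2 B' hB'
    rw [cL] at kL
    simp only [n1, n2, if_false, zero_add] at kL
    have p3 : l3 ∈ B := by
      by_contra h
      simp only [h, if_false] at kL
      split_ifs at kL <;> omega
    have p4 : l4 ∈ B := by
      by_contra h
      simp only [h, if_false] at kL
      split_ifs at kL <;> omega
    -- the third element of `B`
    obtain ⟨u, hu, hu'⟩ := Finset.exists_mem_notMem_of_card_lt_card (s := {l3, l4}) (t := B) (by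
      rw [Finset.card_pair d34, kc]; norm_num)
    obtain ⟨v, hv, hv'⟩ := Finset.exists_mem_notMem_of_card_lt_card (s := {l1, l2}) (t := B') (by
      rw [Finset.card_pair d12, kc']; norm_num)
    simp only [Finset.mem_insert, Finset.mem_singleton, not_or] at hu' hv'
    have hu1 : u ≠ l1 := fun h => n1 (h ▸ hu)
    have hu2 : u ≠ l2 := fun h => n2 (h ▸ hu)
    have huL : u ∉ L := by
      rw [hL]
      simp only [Finset.mem_insert, Finset.mem_singleton]
      tauto
    have hBe : B = {l3, l4, u} := three kc p3 p4 hu d34 (Ne.symm hu'.1) (Ne.symm hu'.2)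
    have hBe' : B' = {l1, l2, v} := three kc' p1 p2 hv d12 (Ne.symm hv'.1) (Ne.symm hv'.2)
    have vB : vec B = ind l3 + ind l4 + ind u := by
      rw [hBe, vec3 d34 (Ne.symm hu'.1) (Ne.symm hu'.2)]
    have vB' : vec B' = ind l1 + ind l2 + ind v := by
      rw [hBe', vec3 d12 (Ne.symm hv'.1) (Ne.symm hv'.2)]
    by_cases v3 : v = l3
    · refine ⟨{l1, l3, l4}, {l2, l3, u}, b2, base2 _ _ _ m2 m3 huL d23, ?_, ?_, ?_⟩
      · rw [cA]; simp [d12.symm, d23, d24]
      · rw [cA]; simp [d12, d13, Ne.symm hu1]
      · rw [vB, vB', v3, vec3 d13 d14 d34, vec3 d23 (Ne.symm hu2) (Ne.symm hu'.1)]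
        abel
    · by_cases v4 : v = l4
      · refine ⟨{l1, l3, l4}, {l2, l4, u}, b2, base2 _ _ _ m2 m4 huL d24, ?_, ?_, ?_⟩
        · rw [cA]; simp [d12.symm, d23, d24]
        · rw [cA]; simp [d12, d14, Ne.symm hu1]
        · rw [vB, vB', v4, vec3 d13 d14 d34, vec3 d24 (Ne.symm hu2) (Ne.symm hu'.2)]
          abel
      · have hvL : v ∉ L := by
          rw [hL]
          simp only [Finset.mem_insert, Finset.mem_singleton]
          tauto
        refine ⟨{l1, l3, v}, {l2, l4, u}, base2 _ _ _ m1 m3 hvL d13, base2 _ _ _ m2 m4 huL d24,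
          ?_, ?_, ?_⟩
        · rw [cA]; simp [d12.symm, d23, Ne.symm hv'.2]
        · rw [cA]; simp [d12, d14, Ne.symm hu1]
        · rw [vB, vB', vec3 d13 (Ne.symm hv'.1) (Ne.symm v3),
            vec3 d24 (Ne.symm hu2) (Ne.symm hu'.2)]
          abel
  · exact ⟨{l3, l4, j}, base2 _ _ _ m3 m4 hj d34, by rw [cA]; simp [d13, d14, d23, d24, hj1, hj2]⟩
  · exact ⟨{l1, l3, l4}, b2, by rw [cA]; simp [d12.symm, d23, d24]⟩
  · exact ⟨{l1, l2, l4}, b3, by rw [cA]; simp⟩

/-- if the triple missing `i` is a basis then one of two other triples is -/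
theorem pair_base {N : Matroid E} {L : Finset E} {a b c d x : E} (ha : a ∈ L) (hd : d ∈ L)
    (hab : a ≠ b) (hac : a ≠ c) (had : a ≠ d) (hbc : b ≠ c) (hbd : b ≠ d) (hcd : c ≠ d)
    (h3 : ∀ B : Finset E, B.card = 3 → (B ∩ L).card = 2 → N.IsBase (B : Set E))
    (hx : x ∉ L) (hB : N.IsBase (({b, c, d} : Finset E) : Set E)) :
    N.IsBase (({a, b, d} : Finset E) : Set E) ∨ N.IsBase (({a, c, d} : Finset E) : Set E) := by
  have hax : a ≠ x := fun h => hx (h ▸ ha)
  have hdx : d ≠ x := fun h => hx (h ▸ hd)
  have h1 : N.IsBase (({a, d, x} : Finset E) : Set E) := by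
    refine h3 _ (card3 had hax hdx) ?_
    have : ({a, d, x} : Finset E) ∩ L = {a, d} := by
      ext z
      simp only [Finset.mem_inter, Finset.mem_insert, Finset.mem_singleton]
      constructor
      · rintro ⟨rfl | rfl | rfl, hz⟩
        · exact Or.inl rfl
        · exact Or.inr rfl
        · exact absurd hz hx
      · rintro (rfl | rfl)
        · exact ⟨Or.inl rfl, ha⟩
        · exact ⟨Or.inr (Or.inl rfl), hd⟩
    rw [this, Finset.card_pair had]
  by_cases hxb : x ∈ ({b, c, d} : Finset E)
  · -- then `x` is `b` or `c`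
    simp only [Finset.mem_insert, Finset.mem_singleton] at hxb
    have hp : ({a, d, x} : Finset E) = {a, x, d} := by
      rw [Finset.pair_comm d x]
    rcases hxb with rfl | rfl | rfl
    · left; rw [← hp]; exact h1
    · right; rw [← hp]; exact h1
    · exact absurd rfl hdx
  · obtain ⟨f, hf, hf', hb⟩ := exch h1 hB (e := x) (by simp) hxb
    have he : ({a, d, x} : Finset E).erase x = {a, d} := by
      ext z
      simp only [Finset.mem_erase, Finset.mem_insert, Finset.mem_singleton]
      constructor
      · rintro ⟨h, rfl | rfl | rfl⟩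
        · exact Or.inl rfl
        · exact Or.inr rfl
        · exact absurd rfl h
      · rintro (rfl | rfl)
        · exact ⟨hax, Or.inl rfl⟩
        · exact ⟨hdx, Or.inr (Or.inl rfl)⟩
    rw [he] at hb
    simp only [Finset.mem_insert, Finset.mem_singleton, not_or] at hf hf'
    have hc : ∀ y : E, (insert y {a, d} : Finset E) = {a, y, d} := by
      intro y
      rw [Finset.insert_comm]
    rw [hc] at hb
    rcases hf with rfl | rfl | rfl
    · exact Or.inl hb
    · exact Or.inr hb
    · exact absurd rfl hf'.2.1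

/-- A matroid whose bases are 3-sets meeting the 4-set `L` in at least two elements, all 3-sets
meeting `L` in exactly two elements and some triples of `L`, is decomposable. -/
theorem dec [Finite E] (N : Matroid E) (l1 l2 l3 l4 : E) (d12 : l1 ≠ l2) (d13 : l1 ≠ l3)
    (d14 : l1 ≠ l4) (d23 : l2 ≠ l3) (d24 : l2 ≠ l4) (d34 : l3 ≠ l4) (hE : N.E = Set.univ)
    (h2 : ∀ B : Finset E, N.IsBase (B : Set E) →
      B.card = 3 ∧ 2 ≤ (B ∩ {l1, l2, l3, l4}).card)
    (h3 : ∀ B : Finset E, B.card = 3 → (B ∩ {l1, l2, l3, l4}).card = 2 → N.IsBase (B : Set E))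
    (h4 : ∃ B : Finset E, N.IsBase (B : Set E) ∧ B ⊆ {l1, l2, l3, l4})
    (h5 : ∃ j, j ∉ ({l1, l2, l3, l4} : Finset E)) :
    ∃ D : Set (Matroid E), IsMatroidSubdivision N D ∧ N ∉ D := by
  classical
  obtain ⟨j, hj⟩ := h5
  obtain ⟨B, hB, hBL⟩ := h4
  have hc := (h2 B hB).1
  have m1 : l1 ∈ ({l1, l2, l3, l4} : Finset E) := by simp
  have m2 : l2 ∈ ({l1, l2, l3, l4} : Finset E) := by simp
  have m3 : l3 ∈ ({l1, l2, l3, l4} : Finset E) := by simp
  have m4 : l4 ∈ ({l1, l2, l3, l4} : Finset E) := by simp
  -- one of the four triples is a basis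
  have h0 : N.IsBase (({l1, l2, l3} : Finset E) : Set E) ∨
      N.IsBase (({l1, l2, l4} : Finset E) : Set E) ∨
      N.IsBase (({l1, l3, l4} : Finset E) : Set E) ∨
      N.IsBase (({l2, l3, l4} : Finset E) : Set E) := by
    by_cases q1 : l1 ∈ B
    · by_cases q2 : l2 ∈ B
      · by_cases q3 : l3 ∈ B
        · rw [← three hc q1 q2 q3 d12 d13 d23]
          exact Or.inl hB
        · have q4 : l4 ∈ B := by
            by_contra q4
            have : B ⊆ {l1, l2} := by
              intro z hz
              have := hBL hz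
              simp only [Finset.mem_insert, Finset.mem_singleton] at this ⊢
              rcases this with rfl | rfl | rfl | rfl
              · exact Or.inl rfl
              · exact Or.inr rfl
              · exact absurd hz q3
              · exact absurd hz q4
            have := (Finset.card_le_card this).trans Finset.card_le_two
            omega
          rw [← three hc q1 q2 q4 d12 d14 d24]
          exact Or.inr (Or.inl hB)
      · have hs : B ⊆ {l1, l3, l4} := by
          intro z hz
          have := hBL hz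
          simp only [Finset.mem_insert, Finset.mem_singleton] at this ⊢
          rcases this with rfl | rfl | rfl | rfl
          · exact Or.inl rfl
          · exact absurd hz q2
          · exact Or.inr (Or.inl rfl)
          · exact Or.inr (Or.inr rfl)
        have := Finset.eq_of_subset_of_card_le hs (by rw [hc, card3 d13 d14 d34])
        rw [← this]
        exact Or.inr (Or.inr (Or.inl hB))
    · have hs : B ⊆ {l2, l3, l4} := by
        intro z hz
        have := hBL hz
        simp only [Finset.mem_insert, Finset.mem_singleton] at this ⊢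
        rcases this with rfl | rfl | rfl | rfl
        · exact absurd hz q1
        · exact Or.inl rfl
        · exact Or.inr (Or.inl rfl)
        · exact Or.inr (Or.inr rfl)
      have := Finset.eq_of_subset_of_card_le hs (by rw [hc, card3 d23 d24 d34])
      rw [← this]
      exact Or.inr (Or.inr (Or.inr hB))
  -- permutations of triples
  have perm : ∀ x y z x' y' z' : E, ({x, y, z} : Finset E) = {x', y', z'} →
      N.IsBase (({x, y, z} : Finset E) : Set E) → N.IsBase (({x', y', z'} : Finset E) : Set E) := by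
    intro x y z x' y' z' h hb
    rw [← h]
    exact hb
  set b4 := N.IsBase (({l1, l2, l3} : Finset E) : Set E) with hb4
  set b3 := N.IsBase (({l1, l2, l4} : Finset E) : Set E) with hb3
  set b2 := N.IsBase (({l1, l3, l4} : Finset E) : Set E) with hb2
  set b1 := N.IsBase (({l2, l3, l4} : Finset E) : Set E) with hb1
  have t : ∀ x y z : E, ({x, y, z} : Finset E) = {y, x, z} := fun x y z => Finset.insert_comm _ _ _
  have t' : ∀ x y z : E, ({x, y, z} : Finset E) = {x, z, y} := fun x y z => by
    rw [Finset.pair_comm y z]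
  have e12 : b1 → b2 ∨ b3 := by
    intro h
    -- a = l1, {b, c, d} = {l2, l3, l4} with d = l4
    have := pair_base (N := N) (a := l1) (b := l3) (c := l2) (d := l4) m1 m4 d13 d12 d14 d23.symm
      d34 d24 h3 hj (perm _ _ _ _ _ _ (t _ _ _) h)
    exact this
  have e12' : b1 → b4 ∨ b2 := by
    intro h
    have := pair_base (N := N) (a := l1) (b := l2) (c := l4) (d := l3) m1 m3 d12 d14 d13 d24
      d23 d34.symm h3 hj (perm _ _ _ _ _ _ (t' _ _ _) h)
    exact this.imp id (perm _ _ _ _ _ _ (t' _ _ _))
  have e12'' : b1 → b4 ∨ b3 := by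
    intro h
    have := pair_base (N := N) (a := l1) (b := l3) (c := l4) (d := l2) m1 m2 d13 d14 d12 d34
      d23.symm d24.symm h3 hj (perm _ _ _ _ _ _ (by rw [t, t']) h)
    exact this.imp (perm _ _ _ _ _ _ (t' _ _ _)) (perm _ _ _ _ _ _ (t' _ _ _))
  have f1 : b2 → b1 ∨ b3 := by
    intro h
    have := pair_base (N := N) (a := l2) (b := l3) (c := l1) (d := l4) m2 m4 d23 d12.symm d24
      d13.symm d34 d14 h3 hj (perm _ _ _ _ _ _ (t _ _ _) h)
    exact this.imp id (perm _ _ _ _ _ _ (t _ _ _))
  have f2 : b2 → b1 ∨ b4 := by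
    intro h
    have := pair_base (N := N) (a := l2) (b := l4) (c := l1) (d := l3) m2 m3 d24 d12.symm d23
      d14.symm d34.symm d13 h3 hj (perm _ _ _ _ _ _ (by rw [t', t]) h)
    exact this.imp (perm _ _ _ _ _ _ (t' _ _ _)) (perm _ _ _ _ _ _ (t _ _ _))
  have g1 : b3 → b1 ∨ b2 := by
    intro h
    have := pair_base (N := N) (a := l3) (b := l2) (c := l1) (d := l4) m3 m4 d23.symm d13.symm d34
      d12.symm d24 d14 h3 hj (perm _ _ _ _ _ _ (t _ _ _) h)
    exact this.imp (perm _ _ _ _ _ _ (t _ _ _)) (perm _ _ _ _ _ _ (t _ _ _))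
  have g2 : b3 → b1 ∨ b4 := by
    intro h
    have := pair_base (N := N) (a := l3) (b := l4) (c := l1) (d := l2) m3 m2 d34 d13.symm
      d23.symm d14.symm d24.symm d12 h3 hj (perm _ _ _ _ _ _ (by rw [t', t]) h)
    exact this.imp (perm _ _ _ _ _ _ (by rw [t', t])) (perm _ _ _ _ _ _ (by rw [t, t']))
  have g3 : b4 → b1 ∨ b2 := by
    intro h
    have := pair_base (N := N) (a := l4) (b := l2) (c := l1) (d := l3) m4 m3 d24.symm d14.symm
      d34.symm d12.symm d23 d13 h3 hj (perm _ _ _ _ _ _ (t _ _ _) h)
    exact this.imp (perm _ _ _ _ _ _ (by rw [t, t'])) (perm _ _ _ _ _ _ (by rw [t, t']))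
  have g4 : b4 → b1 ∨ b3 := by
    intro h
    have := pair_base (N := N) (a := l4) (b := l3) (c := l1) (d := l2) m4 m2 d34.symm d14.symm
      d24.symm d13.symm d23.symm d12 h3 hj (perm _ _ _ _ _ _ (by rw [t', t]) h)
    exact this.imp (perm _ _ _ _ _ _ (by rw [t', t, t'])) (perm _ _ _ _ _ _ (by rw [t, t']))
  have hL : ∀ a b c d : E, (∀ z, (z = a ∨ z = b ∨ z = c ∨ z = d) ↔
      (z = l1 ∨ z = l2 ∨ z = l3 ∨ z = l4)) → ({l1, l2, l3, l4} : Finset E) = {a, b, c, d} := by
    intro a b c d h
    ext z
    simp only [Finset.mem_insert, Finset.mem_singleton]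
    exact (h z).symm
  by_cases k1 : b1
  · by_cases k2 : b2
    · by_cases k3 : b3
      · exact dec_aux N {l1, l2, l3, l4} l1 l2 l3 l4 rfl d12 d13 d14 d23 d24 d34 hE h2 h3 k3 k2 k1
          j hj
      · have k4 : b4 := (e12'' k1).resolve_right k3
        -- the missing triple is {l1, l2, l4}: the last element is l3
        refine dec_aux N {l1, l2, l3, l4} l1 l2 l4 l3 (hL _ _ _ _ (by
        intro z
        constructor <;> rintro (h | h | h | h) <;> simp only [h, true_or, or_true])) d12 d14 d13
          d24 d23 d34.symm hE h2 h3 k4 ?_ ?_ j hj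
        · exact perm _ _ _ _ _ _ (t' _ _ _) k2
        · exact perm _ _ _ _ _ _ (t' _ _ _) k1
    · have k3 : b3 := (e12 k1).resolve_left k2
      have k4 : b4 := (e12' k1).resolve_right k2
      refine dec_aux N {l1, l2, l3, l4} l1 l3 l4 l2 (hL _ _ _ _ (by
        intro z
        constructor <;> rintro (h | h | h | h) <;> simp only [h, true_or, or_true])) d13 d14 d12
        d34 d23.symm d24.symm hE h2 h3 ?_ ?_ ?_ j hj
      · exact perm _ _ _ _ _ _ (t' _ _ _) k4
      · exact perm _ _ _ _ _ _ (t' _ _ _) k3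
      · exact perm _ _ _ _ _ _ (by rw [t, t']) k1
  · have k2 : b2 := by
      rcases h0 with h | h | h | h
      · exact (g3 h).resolve_left k1
      · exact (g1 h).resolve_left k1
      · exact h
      · exact absurd h k1
    have k3 : b3 := (f1 k2).resolve_left k1
    have k4 : b4 := (f2 k2).resolve_left k1
    refine dec_aux N {l1, l2, l3, l4} l2 l3 l4 l1 (hL _ _ _ _ (by
        intro z
        constructor <;> rintro (h | h | h | h) <;> simp only [h, true_or, or_true])) d23 d24 d12.symm
      d34 d13.symm d14.symm hE h2 h3 ?_ ?_ ?_ j hj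
    · exact perm _ _ _ _ _ _ (by rw [t, t']) k4
    · exact perm _ _ _ _ _ _ (by rw [t, t']) k3
    · exact perm _ _ _ _ _ _ (by rw [t, t']) k2

end Pool.Agent.Q333.Dec
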